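import Pool.Agent.W275.UB.Stm2

set_option autoImplicit false

/-!
# Norm polynomials (`S_norm` of project UB)
-/

namespace Pool.Agent.W305.UB.Norm

open MvPolynomial TensorProduct Pool.Agent.W275.UB

/-- an element divides its norm -/
lemma dvd_det {B S J : Type} [CommRing B] [CommRing S] [Algebra B S] [Fintype J] [DecidableEq J]
    (b : Module.Basis J B S) (x : S) :
    x ∣ algebraMap B S (Algebra.leftMulMatrix b x).det := by
  set M := Algebra.leftMulMatrix b x with hM
  set y : S := b.equivFun.symm (M.adjugate.mulVec (b.repr 1)) with hy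
  refine ⟨y, ?_⟩
  apply b.ext_elem
  intro i
  have h1 := congrFun (Algebra.leftMulMatrix_mulVec_repr b x y) i
  rw [← h1]
  have h2 : (b.repr y : J → B) = M.adjugate.mulVec (b.repr 1) := by
    funext t
    rw [hy, ← b.equivFun_apply]
    exact congrFun (b.equivFun.apply_symm_apply (M.adjugate.mulVec (b.repr 1))) t
  rw [h2, Matrix.mulVec_mulVec, ← hM, Matrix.mul_adjugate]
  rw [Algebra.algebraMap_eq_smul_one]
  simp [Matrix.smul_mulVec]

theorem main : S_norm := by
  intro O J ι _ _ _ _ ω c hc
  classical
  set B := MvPolynomial (ι × J) ℤ with hB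
  let bb : Module.Basis J B (B ⊗[ℤ] O) := Algebra.TensorProduct.basis B ω
  let v : ι → B ⊗[ℤ] O := fun i => ∑ j, (X (i, j) : B) ⊗ₜ[ℤ] ω j
  let x : B ⊗[ℤ] O := aeval v c
  let φ : ∀ (R : Type) [CommRing R] (σ : O →+* R) (w : ι × J → R), B ⊗[ℤ] O →ₐ[ℤ] R :=
    fun R _ σ w => Algebra.TensorProduct.lift (aeval w : B →ₐ[ℤ] R) σ.toIntAlgHom
      (fun _ _ => Commute.all _ _)
  have hφ : ∀ (R : Type) [CommRing R] (σ : O →+* R) (w : ι × J → R) (b : B) (o : O),
      φ R σ w (b ⊗ₜ o) = aeval w b * σ o := by
    intro R _ σ w b o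
    simp [φ]
  have hx : ∀ (R : Type) [CommRing R] (σ : O →+* R) (w : ι × J → R),
      φ R σ w x = aeval (cv (fun j => σ (ω j)) w) c := by
    intro R _ σ w
    have h1 : φ R σ w x = aeval (fun i => φ R σ w (v i)) c := by
      change φ R σ w (aeval v c) = _
      rw [← AlgHom.comp_apply, comp_aeval]
    rw [h1]
    congr 2
    funext i
    simp only [v, map_sum, hφ, cv, aeval_X]
    exact Finset.sum_congr rfl (fun j _ => mul_comm _ _)
  refine ⟨(Algebra.leftMulMatrix bb x).det, ?_, ?_⟩
  · -- nonzero
    obtain ⟨v₀, hv₀⟩ : ∃ v₀ : ι → ℤ, eval v₀ c ≠ 0 := by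
      by_contra hcon
      push Not at hcon
      exact hc (MvPolynomial.funext (fun t => by rw [hcon t, map_zero]))
    let w₀ : ι × J → ℤ := fun q => v₀ q.1 * ω.repr 1 q.2
    let ψ := φ O (RingHom.id O) (fun q => (w₀ q : O))
    have hψ : ∀ (y : B ⊗[ℤ] O) (i : J), eval w₀ (bb.repr y i) = ω.repr (ψ y) i := by
      intro y i
      induction y using TensorProduct.induction_on with
      | zero => simp
      | add a b ha hb => simp [ha, hb]
      | tmul b o =>
        have h1 : ψ (b ⊗ₜ o) = (eval w₀ b : ℤ) • o := by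
          change φ O (RingHom.id O) (fun q => (w₀ q : O)) (b ⊗ₜ o) = _
          rw [hφ]
          have h2 : aeval (fun q => (w₀ q : O)) b = ((eval w₀ b : ℤ) : O) := by
            have h3 := MvPolynomial.eval₂_comp_right (Int.castRingHom O) (RingHom.id ℤ) w₀ b
            have h4 : aeval (fun q => (w₀ q : O)) b = eval₂ (Int.castRingHom O) (fun q => (w₀ q : O)) b := by
              rw [aeval_def]; rfl
            rw [h4]
            have h5 : ((eval w₀ b : ℤ) : O) = Int.castRingHom O (eval₂ (RingHom.id ℤ) w₀ b) := by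
              rw [eval₂_id]
              rfl
            rw [h5, h3]
            simp [Function.comp_def]
          rw [h2, zsmul_eq_mul]
          rfl
        rw [h1, map_smul, Finsupp.smul_apply]
        simp [bb, Algebra.TensorProduct.basis_repr_tmul]
    have hψx : ψ x = algebraMap ℤ O (eval v₀ c) := by
      change φ O (RingHom.id O) (fun q => (w₀ q : O)) x = _
      rw [hx]
      have h1 : cv (fun j => (RingHom.id O) (ω j)) (fun q => (w₀ q : O)) =
          fun i => algebraMap ℤ O (v₀ i) := by
        funext i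
        have h2 : ∑ j, (ω.repr 1 j) • ω j = (1 : O) := ω.sum_repr 1
        calc cv (fun j => (RingHom.id O) (ω j)) (fun q => (w₀ q : O)) i
            = ∑ j, (v₀ i : O) * ((ω.repr 1 j) • ω j) := by
              simp only [cv, w₀, RingHom.id_apply, zsmul_eq_mul]
              refine Finset.sum_congr rfl (fun j _ => ?_)
              push_cast
              ring
          _ = (v₀ i : O) := by rw [← Finset.mul_sum, h2, mul_one]
          _ = _ := by simp
      rw [h1]
      have h3 := MvPolynomial.aeval_algebraMap_apply (R := ℤ) O v₀ c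
      rw [MvPolynomial.aeval_eq_eval] at h3
      exact h3
    intro h0
    have h1 : eval w₀ (Algebra.leftMulMatrix bb x).det = 0 := by rw [h0, map_zero]
    rw [RingHom.map_det] at h1
    have h2 : (eval w₀).mapMatrix (Algebra.leftMulMatrix bb x) = Algebra.leftMulMatrix ω (ψ x) := by
      ext s t
      rw [RingHom.mapMatrix_apply, Matrix.map_apply, Algebra.leftMulMatrix_eq_repr_mul,
        Algebra.leftMulMatrix_eq_repr_mul, hψ]
      have h3 : ψ (bb t) = ω t := by
        change φ O (RingHom.id O) (fun q => (w₀ q : O)) (bb t) = _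
        rw [show bb t = (1 : B) ⊗ₜ[ℤ] ω t from Algebra.TensorProduct.basis_apply ω t, hφ]
        simp
      rw [map_mul, h3]
    rw [h2, ← Algebra.norm_eq_matrix_det, hψx, Algebra.norm_algebraMap_of_basis ω] at h1
    exact hv₀ (eq_zero_of_pow_eq_zero h1)
  · intro R _ σ w
    have h1 := dvd_det bb x
    have h2 := map_dvd (φ R σ w) h1
    rw [hx] at h2
    have h3 : φ R σ w (algebraMap B (B ⊗[ℤ] O) (Algebra.leftMulMatrix bb x).det) =
        aeval w (Algebra.leftMulMatrix bb x).det := by
      rw [Algebra.TensorProduct.algebraMap_apply, hφ]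
      simp
    rw [h3] at h2
    exact h2

end Pool.Agent.W305.UB.Norm
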