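import Pool.Agent.W285.UB.Stm

/-! UB-PER -/

set_option autoImplicit false

namespace Pool.Agent.W305.UB

open Pool.Agent.W285.UB NumberField Height Module

theorem per : S_PER := by
  intro K _ _ d φ L _ _ _ h
  set Φ := pval ((algebraMap K L).comp (algebraMap (𝓞 K) K)) φ with hΦ
  rintro ⟨v, hv, m, n, hmn, c, hc, heq⟩
  have hne : ∀ v : Fin 2 → L, v ≠ 0 → Φ v ≠ 0 := by
    intro v hv h0
    have h1 := h v hv
    rw [h0] at h1
    have h2 : mulHeight (0 : Fin 2 → L) = 1 := by simp
    have h3 := one_le_mulHeight v
    linarith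
  have hit : ∀ k, Φ^[k] v ≠ 0 := by
    intro k
    induction k with
    | zero => exact hv
    | succ k ih => rw [Function.iterate_succ_apply']; exact hne _ ih
  have hmono : StrictMono fun k => mulHeight (Φ^[k] v) := by
    refine strictMono_nat_of_lt_succ fun k => ?_
    rw [Function.iterate_succ_apply']
    exact h _ (hit k)
  have h1 := hmono hmn
  simp only at h1
  rw [heq, mulHeight_smul_eq_mulHeight _ hc] at h1
  exact lt_irrefl _ h1

end Pool.Agent.W305.UB
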